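import Pool.Agent.Helper53.OE.Sol

/-! The extension step: a solution above `s0` extends below `s0`. -/

set_option autoImplicit false
set_option linter.unusedSectionVars false

open Set Filter Topology

namespace Pool.Agent.Helper53.OE

open Pool.Agent.Helper50.HL

variable {V Y : Type*} [NormedAddCommGroup V] [NormedSpace ℝ V] [FiniteDimensional ℝ V]
  [TopologicalSpace Y] [T2Space Y] {dev : Y → V} (hdev : IsLocalHomeomorph dev)

/-- the union of the open balls of radius `r` over `Q` -/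
def nbd (dev : Y → V) (Q : Set Y) (r : ℝ) : Set Y :=
  {y | ∃ q ∈ Q, ‖dev y - dev q‖ < r ∧ dev y ∈ dom dev q ∧ sec dev q (dev y) = y}

include hdev

theorem nbd_dom {Q : Set Y} {R r : ℝ} (hR : ∀ q ∈ Q, Metric.ball (dev q) R ⊆ dom dev q)
    (hr : r ≤ R) {y : Y} {q : Y} (hq : q ∈ Q) (hyq : ‖dev y - dev q‖ < r)
    (hs : sec dev q (dev y) = y) :
    Metric.ball (dev q) R ⊆ dom dev y ∧ EqOn (sec dev y) (sec dev q) (Metric.ball (dev q) R) := by
  have hR0 : 0 < R := lt_of_lt_of_le (lt_of_le_of_lt (norm_nonneg _) hyq) hr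
  have := rebase hdev (y := q) Metric.isOpen_ball (convex_ball (dev q) R)
    (Metric.mem_ball_self hR0) (hR q hq) (x := dev y) (by
      rw [mem_ball_iff_norm]; exact hyq.trans_le hr)
  rwa [hs] at this

theorem isOpen_nbd {Q : Set Y} {R r : ℝ} (hR : ∀ q ∈ Q, Metric.ball (dev q) R ⊆ dom dev q)
    (hr : r ≤ R) : IsOpen (nbd dev Q r) := by
  rw [isOpen_iff_mem_nhds]
  rintro y ⟨q, hq, hyq, hd, hs⟩
  have h1 := nbd_dom hdev hR hr hq hyq hs
  have hc : ∀ᶠ y' in 𝓝 y, ‖dev y' - dev q‖ < r := by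
    have : ContinuousAt (fun y' => ‖dev y' - dev q‖) y := by
      have := hdev.continuous.continuousAt (x := y)
      fun_prop
    exact this.eventually_lt continuousAt_const hyq
  filter_upwards [near hdev y, hc] with y' h2 h3
  have h4 : dev y' ∈ Metric.ball (dev q) R := by
    rw [mem_ball_iff_norm]; exact h3.trans_le hr
  exact ⟨q, hq, h3, hR q hq h4, by rw [← h1.2 h4]; exact h2.2.1⟩

/-- The union of the closed balls of radius `r'` over a compact set is compact. -/
theorem exists_compact_exact {K : Set Y} (hK : IsCompact K) {r r' : ℝ} (hr : r' < r)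
    (h : ∀ z ∈ K, Metric.ball (dev z) r ⊆ dom dev z) :
    ∃ K1 : Set Y, IsCompact K1 ∧ (∀ z ∈ K, ∀ x, ‖x - dev z‖ ≤ r' → sec dev z x ∈ K1) ∧
      ∀ y ∈ K1, ∃ z ∈ K, ∃ x, ‖x - dev z‖ ≤ r' ∧ sec dev z x = y := by
  have hprop := FiniteDimensional.proper ℝ V
  have hcomp : IsCompact (K ×ˢ Metric.closedBall (0 : V) r') :=
    hK.prod (isCompact_closedBall 0 r')
  have hf : Continuous (fun p : Y × V => (p.1, dev p.1 + p.2)) :=
    continuous_fst.prodMk ((hdev.continuous.comp continuous_fst).add continuous_snd)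
  have hmem : ∀ z ∈ K, ∀ v : V, ‖v‖ ≤ r' → dev z + v ∈ dom dev z := by
    intro z hz v hv
    apply h z hz
    rw [Metric.mem_ball, dist_eq_norm, add_sub_cancel_left]
    exact hv.trans_lt hr
  have hcomp2 := hcomp.image hf
  have hcomp3 := hcomp2.image_of_continuousOn ((continuousOn_graph hdev).mono (by
    rintro _ ⟨⟨z, v⟩, ⟨hz, hv⟩, rfl⟩
    exact hmem z hz v (by simpa using hv)))
  refine ⟨_, hcomp3, ?_, ?_⟩
  · intro z hz x hx
    refine ⟨(z, x), ⟨(z, x - dev z), ⟨hz, by simpa using hx⟩, ?_⟩, rfl⟩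
    simp
  · rintro _ ⟨_, ⟨⟨z, v⟩, ⟨hz, hv⟩, rfl⟩, rfl⟩
    exact ⟨z, hz, dev z + v, by simpa using hv, rfl⟩

theorem down_step {φ : V →ₗ[ℝ] ℝ} {u w : Y → ℤ} {s0 : ℝ} (h : Sol dev φ u s0 w) {C : Set Y}
    (hC : IsCompact C) (hu : LC Cᶜ u) {e : V} (he : φ e = 1) :
    ∃ δ : ℝ, 0 < δ ∧ ∃ w' : Y → ℤ, Sol dev φ u (s0 - δ) w' := by
  classical
  obtain ⟨Z, hZ, hZ'⟩ := h.supp
  set Q : Set Y := Z ∪ C with hQdef
  have hQ : IsCompact Q := hZ.union hC
  obtain ⟨r, hr, hball⟩ := exists_radius hdev hQ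
  obtain ⟨K', hK', hsecK, hexact⟩ := exists_compact_exact hdev hQ (by linarith : r / 4 < r) hball
  have hen := norm_nonneg e
  set δ : ℝ := r / (16 * (‖e‖ + 1)) with hδ
  have hδ0 : 0 < δ := by positivity
  have hδe : 2 * δ * ‖e‖ < r / 4 := by
    have h1 : 2 * δ * ‖e‖ = r * ‖e‖ / (8 * (‖e‖ + 1)) := by rw [hδ]; field_simp; ring
    rw [h1, div_lt_div_iff₀ (by positivity) (by norm_num)]
    nlinarith
  -- the segment above a point near `Q`
  have hup : ∀ y ∈ nbd dev Q (r / 2), ∀ t : ℝ, 0 ≤ t → t ≤ 2 * δ →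
      dev y + t • e ∈ dom dev y := by
    rintro y ⟨q, hq, hyq, hd, hs⟩ t h0 h1
    refine (nbd_dom hdev hball (by linarith) hq hyq hs).1 ?_
    rw [mem_ball_iff_norm]
    have h2 : dev y + t • e - dev q = (dev y - dev q) + t • e := by abel
    rw [h2]
    refine (norm_add_le _ _).trans_lt ?_
    rw [norm_smul, Real.norm_eq_abs, abs_of_nonneg h0]
    nlinarith
  -- points outside `K'` do not meet `Q` on the way up
  have hfar : ∀ y ∈ nbd dev Q (r / 2), y ∉ K' → ∀ t : ℝ, 0 ≤ t → t ≤ 2 * δ →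
      mv dev y (t • e) ∉ Q := by
    intro y hy hyK t h0 h1 hmem
    have hd := hup y hy t h0 h1
    have h2 := rev hdev hd
    have h3 : dev (mv dev y (t • e)) = dev y + t • e := dev_mv hdev hd
    have h4 := hsecK (mv dev y (t • e)) hmem (dev y) (by
      rw [h3, sub_add_cancel_left, norm_neg, norm_smul, Real.norm_eq_abs, abs_of_nonneg h0]
      nlinarith)
    rw [mv_def] at h4
    rw [h2.2] at h4
    exact hyK h4
  have hKN : K' ⊆ nbd dev Q (r / 2) := by
    intro y hy
    obtain ⟨q, hq, x, hx, rfl⟩ := hexact y hy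
    have hx1 : x ∈ Metric.ball (dev q) r := by rw [mem_ball_iff_norm]; linarith
    have hd := hball q hq hx1
    have h3 : dev (sec dev q x) = x := dev_sec hdev hd
    exact ⟨q, hq, by rw [h3]; linarith, by rw [h3]; exact hd, by rw [h3]⟩
  set w' : Y → ℤ := fun y => if y ∈ nbd dev Q (r / 2) then
    (w (mv dev y ((2 * δ) • e)) - u (mv dev y ((2 * δ) • e))) + u y else 0 with hw'
  have hN : IsOpen (nbd dev Q (r / 2)) := isOpen_nbd hdev hball (by linarith)
  have hQN : Q ⊆ nbd dev Q (r / 2) := fun q hq => ⟨q, hq, by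
    rw [sub_self, norm_zero]; linarith, mem_dom_self hdev q, sec_self hdev q⟩
  have hzero : ∀ y, s0 - δ < φ (dev y) → y ∉ K' → w' y = 0 := by
    intro y hy hyK
    by_cases hyN : y ∈ nbd dev Q (r / 2)
    · simp only [hw', if_pos hyN]
      have h2δ : (0 : ℝ) ≤ 2 * δ := by positivity
      have hd := hup y hyN (2 * δ) h2δ le_rfl
      have h1 : w (mv dev y ((2 * δ) • e)) = 0 := by
        by_contra hne
        refine hfar y hyN hyK (2 * δ) h2δ le_rfl (Or.inl (hZ' _ ?_ hne))
        rw [phi_mv hdev hd, he, mul_one]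
        linarith
      have h2 : u (mv dev y ((2 * δ) • e)) = u y :=
        hu.ray hdev h2δ hd fun t h0 h1 hmem => hfar y hyN hyK t h0 h1 (Or.inr hmem)
      rw [h1, h2]; ring
    · simp only [hw', if_neg hyN]
  refine ⟨δ, hδ0, w', ⟨?_, K', hK', ?_⟩⟩
  · intro y hy
    have hy' : s0 - δ < φ (dev y) := hy
    by_cases hyN : y ∈ nbd dev Q (r / 2)
    · have h2δ : (0 : ℝ) ≤ 2 * δ := by positivity
      have hd := hup y hyN (2 * δ) h2δ le_rfl
      have hc : Tendsto (fun y' => mv dev y' ((2 * δ) • e)) (𝓝 y) (𝓝 (mv dev y ((2 * δ) • e))) := by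
        have c1 : ContinuousAt (fun q : Y × V => sec dev q.1 q.2) (y, dev y + (2 * δ) • e) :=
          (continuousOn_graph hdev).continuousAt ((isOpen_graph hdev).mem_nhds hd)
        have c2 : Tendsto (fun y' => (y', dev y' + (2 * δ) • e)) (𝓝 y)
            (𝓝 (y, dev y + (2 * δ) • e)) :=
          tendsto_id.prodMk_nhds ((hdev.continuous.tendsto y).add_const _)
        exact c1.tendsto.comp c2
      have hlc := h.lc (mv dev y ((2 * δ) • e)) (by
        show s0 < φ (dev (mv dev y ((2 * δ) • e)))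
        rw [phi_mv hdev hd, he, mul_one]
        linarith)
      filter_upwards [hc.eventually hlc, hN.mem_nhds hyN] with y' h1 h2
      simp only [hw', if_pos hyN, if_pos h2]
      linarith
    · have hyC : y ∉ C := fun hmem => hyN (hQN (Or.inr hmem))
      have hyK : y ∉ K' := fun hmem => hyN (hKN hmem)
      have hlc := hu y hyC
      have hopen : ∀ᶠ y' in 𝓝 y, s0 - δ < φ (dev y') := by
        have : ContinuousAt (fun y' => φ (dev y')) y :=
          (φ.continuous_of_finiteDimensional.comp hdev.continuous).continuousAt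
        exact continuousAt_const.eventually_lt this hy'
      have hw0 : w' y = 0 := hzero y hy' hyK
      filter_upwards [hlc, hopen, hK'.isClosed.isOpen_compl.mem_nhds hyK] with y' h1 h2 h3
      rw [hzero y' h2 h3, hw0, h1]
  · intro y hy hw
    by_contra hyK
    exact hw (hzero y hy hyK)

end Pool.Agent.Helper53.OE
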