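import Pool.Agent.Helper53.OE.Sol
import Pool.Agent.Helper2.RO.Aff

/-! The limit step: solutions above all levels `s > s0` give a solution above `s0`. -/

set_option autoImplicit false
set_option linter.unusedSectionVars false

open Set Filter Topology

namespace Pool.Agent.Helper53.OE

open Pool.Agent.Helper50.HL Pool.Agent.Helper2.MK Pool.Agent.Helper2.RO

/-- volume preserving maps in a bounded set are bounded below -/
theorem det_bound (V : Type*) [NormedAddCommGroup V] [NormedSpace ℝ V] [FiniteDimensional ℝ V]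
    (B : ℝ) : ∃ c : ℝ, 0 < c ∧ ∀ T : V ≃ₗ[ℝ] V, |LinearMap.det (T : V →ₗ[ℝ] V)| = 1 →
      (∀ x, ‖T x‖ ≤ B * ‖x‖) → ∀ x, c * ‖x‖ ≤ ‖T x‖ := by
  set S : Set (V →L[ℝ] V) := {T | ‖T‖ ≤ max B 0 ∧ |T.det| = 1} with hS
  have hScomp : IsCompact S := by
    have hp := FiniteDimensional.proper ℝ (V →L[ℝ] V)
    have h1 : S = Metric.closedBall 0 (max B 0) ∩ {T | |T.det| = 1} := by
      ext T; simp [hS]
    rw [h1]
    refine (isCompact_closedBall _ _).inter_right ?_
    exact isClosed_eq (ContinuousLinearMap.continuous_det.abs) continuous_const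
  have hunit : ∀ T ∈ S, IsUnit T := by
    intro T hT
    have h1 : T.det ≠ 0 := by
      intro h0
      have := hT.2
      rw [h0, abs_zero] at this
      exact zero_ne_one this
    have h2 : IsUnit (LinearMap.det (T : V →ₗ[ℝ] V)) := isUnit_iff_ne_zero.2 h1
    obtain ⟨e, he⟩ : ∃ e : V ≃ₗ[ℝ] V, ∀ x, e x = T x :=
      ⟨LinearEquiv.ofIsUnitDet (f := (T : V →ₗ[ℝ] V)) (v := Module.finBasis ℝ V)
        (v' := Module.finBasis ℝ V) (by rw [LinearMap.det_toMatrix]; exact h2), fun x => rfl⟩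
    refine ⟨⟨T, (e.symm.toContinuousLinearEquiv : V →L[ℝ] V), ?_, ?_⟩, rfl⟩
    · ext x
      show T (e.symm x) = x
      rw [← he, e.apply_symm_apply]
    · ext x
      show e.symm (T x) = x
      rw [← he, e.symm_apply_apply]
  have hcont : ContinuousOn (fun T : V →L[ℝ] V => ‖Ring.inverse T‖) S := by
    intro T hT
    obtain ⟨U, hU⟩ := hunit T hT
    have := NormedRing.inverse_continuousAt U
    rw [hU] at this
    exact this.norm.continuousWithinAt
  obtain ⟨A, hA⟩ := hScomp.bddAbove_image hcont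
  refine ⟨(max A 1)⁻¹, by positivity, fun T hT hTB x => ?_⟩
  set L : V →L[ℝ] V := LinearMap.toContinuousLinearMap (T : V →ₗ[ℝ] V) with hL
  have hLS : L ∈ S := by
    refine ⟨?_, ?_⟩
    · refine ContinuousLinearMap.opNorm_le_bound _ (le_max_right _ _) fun x => ?_
      refine (hTB x).trans (mul_le_mul_of_nonneg_right (le_max_left _ _) (norm_nonneg _))
    · show |LinearMap.det ((LinearMap.toContinuousLinearMap (T : V →ₗ[ℝ] V) : V →L[ℝ] V) :
        V →ₗ[ℝ] V)| = 1
      exact hT
  have h1 : ‖Ring.inverse L‖ ≤ max A 1 := (hA ⟨L, hLS, rfl⟩).trans (le_max_left _ _)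
  have h2 : Ring.inverse L * L = 1 := Ring.inverse_mul_cancel _ (hunit L hLS)
  have h3 : x = Ring.inverse L (T x) := by
    have := congrArg (fun f : V →L[ℝ] V => f x) h2
    exact this.symm
  have h4 : ‖x‖ ≤ max A 1 * ‖T x‖ := by
    calc ‖x‖ = ‖Ring.inverse L (T x)‖ := congrArg _ h3
      _ ≤ ‖Ring.inverse L‖ * ‖T x‖ := ContinuousLinearMap.le_opNorm _ _
      _ ≤ max A 1 * ‖T x‖ := by gcongr
  rw [inv_mul_le_iff₀ (by positivity)]
  exact h4

section Ultra

variable {V Y : Type*} [NormedAddCommGroup V] [NormedSpace ℝ V] [TopologicalSpace Y] {dev : Y → V}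
variable [T2Space Y] (hdev : IsLocalHomeomorph dev)
include hdev

/-- A uniform radius passes to the limit. -/
theorem radius_limit {m : Y} {ρ : ℝ} (hρ : 0 < ρ) {ι : Type*} {F : Filter ι} [F.NeBot]
    {mk : ι → Y} (hm : Tendsto mk F (𝓝 m))
    (h : ∀ᶠ k in F, Metric.ball (dev (mk k)) ρ ⊆ dom dev (mk k)) :
    Metric.ball (dev m) (ρ / 2) ⊆ dom dev m := by
  have h1 := hm.eventually (near hdev m)
  have h2 : ∀ᶠ k in F, dist (dev (mk k)) (dev m) < ρ / 2 := by
    have := (hdev.continuous.tendsto m).comp hm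
    exact (Metric.tendsto_nhds.1 this) _ (by linarith)
  obtain ⟨k, hk, hk1, hk2⟩ := (h.and (h1.and h2)).exists
  have hmem : dev m ∈ Metric.ball (dev (mk k)) ρ := by
    rw [Metric.mem_ball, dist_comm]; linarith
  have h3 := (rebase hdev Metric.isOpen_ball (convex_ball _ _) (Metric.mem_ball_self hρ) hk hmem).1
  rw [hk1.2.2.2] at h3
  refine Subset.trans (Metric.ball_subset_ball' ?_) h3
  rw [dist_comm]
  linarith

/-- Let `p k → p`, `t k → t` along an ultrafilter, such that all points of the backward segments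
`p k - τ e`, `0 ≤ τ ≤ t k`, exist and have a uniform radius. Then `p - t e` exists. -/
theorem back_limit {ι : Type*} {F : Filter ι} [F.NeBot] {p : ι → Y} {p0 : Y} {t : ι → ℝ} {t0 : ℝ}
    {v : V} {ρ : ℝ} (hρ : 0 < ρ) (hp : Tendsto p F (𝓝 p0)) (ht : Tendsto t F (𝓝 t0))
    (hrad : ∀ᶠ k in F, ∀ τ : ℝ, 0 ≤ τ → τ ≤ t k → dev (p k) + τ • v ∈ dom dev (p k) ∧
      Metric.ball (dev (mv dev (p k) (τ • v))) ρ ⊆ dom dev (mv dev (p k) (τ • v)))
    (ht0 : 0 ≤ t0) : dev p0 + t0 • v ∈ dom dev p0 := by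
  set ε : ℝ := ρ / (4 * (‖v‖ + 1)) with hε
  have hv := norm_nonneg v
  have hε0 : 0 < ε := by positivity
  have hεv : ε * ‖v‖ < ρ / 2 := by
    rw [hε, div_mul_eq_mul_div, div_lt_iff₀ (by positivity)]
    nlinarith
  have key : ∀ N : ℕ, ∀ τ : ℝ, 0 ≤ τ → τ ≤ t0 → τ ≤ N * ε → dev p0 + τ • v ∈ dom dev p0 := by
    intro N
    induction N with
    | zero =>
      intro τ h0 h1 h2
      have : τ = 0 := by
        simp only [Nat.cast_zero, zero_mul] at h2
        linarith
      rw [this, zero_smul, add_zero]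
      exact mem_dom_self hdev p0
    | succ N ih =>
      intro τ h0 h1 h2
      by_cases h3 : τ ≤ N * ε
      · exact ih τ h0 h1 h3
      push Not at h3
      push_cast at h2
      have hτ : 0 < τ := lt_of_le_of_lt (by positivity) h3
      set τ0 : ℝ := max 0 (τ - ε) with hτ0
      have a0 : 0 ≤ τ0 := le_max_left _ _
      have a1 : τ0 < τ := max_lt hτ (by linarith)
      have a2 : τ0 ≤ N * ε := max_le (by positivity) (by linarith)
      have a3 : τ - τ0 ≤ ε := by have := le_max_right 0 (τ - ε); linarith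
      have hd := ih τ0 a0 (by linarith) a2
      have hlim : Tendsto (fun k => mv dev (p k) (τ0 • v)) F (𝓝 (mv dev p0 (τ0 • v))) := by
        have c1 : ContinuousAt (fun q : Y × V => sec dev q.1 q.2) (p0, dev p0 + τ0 • v) :=
          (continuousOn_graph hdev).continuousAt ((isOpen_graph hdev).mem_nhds hd)
        have c2 : Tendsto (fun k => (p k, dev (p k) + τ0 • v)) F (𝓝 (p0, dev p0 + τ0 • v)) := by
          refine hp.prodMk_nhds ?_
          exact ((hdev.continuous.tendsto p0).comp hp).add_const _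
        exact c1.tendsto.comp c2
      have hev : ∀ᶠ k in F, Metric.ball (dev (mv dev (p k) (τ0 • v))) ρ ⊆
          dom dev (mv dev (p k) (τ0 • v)) := by
        have h4 : ∀ᶠ k in F, τ0 < t k := ht.eventually_const_lt (by linarith)
        filter_upwards [hrad, h4] with k hk1 hk2
        exact (hk1 τ0 a0 hk2.le).2
      have hb := radius_limit hdev hρ hlim hev
      rw [dev_mv hdev hd] at hb
      refine hop hdev a0 hd hb a1.le ?_
      exact lt_of_le_of_lt (mul_le_mul_of_nonneg_right a3 hv) hεv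
  obtain ⟨N, hN⟩ := exists_nat_ge (t0 / ε)
  exact key N t0 ht0 le_rfl (by rwa [div_le_iff₀ hε0] at hN)

end Ultra

end Pool.Agent.Helper53.OE
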