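import Pool.Agent.Helper53.OE.Step
import Pool.Agent.Helper53.OE.Down

/-! Functions which are locally constant near infinity are constant near infinity. -/

set_option autoImplicit false
set_option linter.unusedSectionVars false

open Set Filter Topology

namespace Pool.Agent.Helper53.OE

open Pool.Agent.Helper50.HL Pool.Agent.Helper2.MK Pool.Agent.Helper2.RO

variable {V G Y : Type*} [NormedAddCommGroup V] [NormedSpace ℝ V] [FiniteDimensional ℝ V]
  [Group G] [TopologicalSpace Y] [T2Space Y] [MulAction G Y] (M : AffineDeveloping V G Y)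

include M in
theorem finite_inter {K K' : Set Y} (hK : IsCompact K) (hK' : IsCompact K') :
    {g : G | ∃ z ∈ K, g • z ∈ K'}.Finite := finite_of_compact M hK hK'

/-- gluing the solutions for all `s > s0` -/
theorem glue_sol {φ : V →ₗ[ℝ] ℝ} {u : Y → ℤ} {e : V} (he : 0 < φ e) {s0 : ℝ}
    (h : ∀ s, s0 < s → ∃ w, Sol M.dev φ u s w) : ∃ w, ∀ s, s0 < s → Sol M.dev φ u s w := by
  choose! w hw using h
  have hφc : Continuous fun y => φ (M.dev y) :=
    φ.continuous_of_finiteDimensional.comp M.dev_local.continuous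
  set W : Y → ℤ := fun y => w ((s0 + φ (M.dev y)) / 2) y with hW
  have key : ∀ s, s0 < s → ∀ y, s < φ (M.dev y) → W y = w s y := by
    intro s hs y hy
    have h1 : s0 < (s0 + φ (M.dev y)) / 2 := by linarith
    have h2 : (s0 + φ (M.dev y)) / 2 < φ (M.dev y) := by linarith
    have h3 := (hw _ h1).mono (le_max_left ((s0 + φ (M.dev y)) / 2) s)
    have h4 := (hw s hs).mono (le_max_right ((s0 + φ (M.dev y)) / 2) s)
    exact h3.unique M.dev_local h4 he (max_lt h2 hy)
  refine ⟨W, fun s hs => ⟨fun y hy => ?_, ?_⟩⟩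
  · have hy' : s < φ (M.dev y) := hy
    have hopen : ∀ᶠ y' in 𝓝 y, s < φ (M.dev y') :=
      continuousAt_const.eventually_lt hφc.continuousAt hy'
    filter_upwards [(hw s hs).lc y hy, hopen] with y' h1 h2
    rw [key s hs y' h2, key s hs y hy']
    exact h1
  · obtain ⟨Z, hZ, hZ'⟩ := (hw s hs).supp
    exact ⟨Z, hZ, fun y hy hne => hZ' y hy (by rw [← key s hs y hy]; exact hne)⟩

/-- solutions exist above every level -/
theorem exists_sol {φ : V →ₗ[ℝ] ℝ} {u : Y → ℤ} {C : Set Y} (hC : IsCompact C) (hu : LC Cᶜ u)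
    {e : V} (he : φ e = 1) (s : ℝ) : ∃ w, Sol M.dev φ u s w := by
  have he' : 0 < φ e := by rw [he]; exact one_pos
  have hφc : Continuous fun y => φ (M.dev y) :=
    φ.continuous_of_finiteDimensional.comp M.dev_local.continuous
  set I : Set ℝ := {s | ∃ w, Sol M.dev φ u s w} with hI
  by_contra hs
  -- `I` contains all large levels
  obtain ⟨B, hB⟩ := (hC.image hφc).bddAbove
  have hBI : B ∈ I := by
    refine ⟨fun _ => 0, ⟨?_, ∅, isCompact_empty, fun y _ h => absurd rfl h⟩⟩
    intro y hy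
    have hyC : y ∉ C := fun hmem => by
      have h1 : φ (M.dev y) ≤ B := hB ⟨y, hmem, rfl⟩
      have h2 : B < φ (M.dev y) := hy
      linarith
    filter_upwards [hu y hyC] with y' h1
    rw [h1]
  have hmono : ∀ a b, a ∈ I → a ≤ b → b ∈ I := fun a b ⟨w, hw⟩ hab => ⟨w, hw.mono hab⟩
  have hbdd : BddBelow I := by
    refine ⟨s, fun a ha => ?_⟩
    by_contra hlt
    push Not at hlt
    exact hs (hmono a s ha hlt.le)
  set a := sInf I with ha
  have hgt : ∀ b, a < b → b ∈ I := by
    intro b hb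
    obtain ⟨c, hc, hcb⟩ := exists_lt_of_csInf_lt ⟨B, hBI⟩ hb
    exact hmono c b hc hcb.le
  obtain ⟨w, hw⟩ := glue_sol M he' hgt
  have h1 := limit_step M hw hC hu he
  obtain ⟨δ, hδ, w', hw'⟩ := down_step M.dev_local h1 hC hu he
  have h2 : a ≤ a - δ := csInf_le hbdd ⟨w', hw'⟩
  linarith

include M in
/-- Hartogs: `u` is constant off a compact set. -/
theorem hartogs [ConnectedSpace Y] (hn : 2 ≤ Module.finrank ℝ V) {u : Y → ℤ} {C : Set Y}
    (hC : IsCompact C) (hu : LC Cᶜ u) :
    ∃ κ : ℤ, ∃ Z : Set Y, IsCompact Z ∧ ∀ y, y ∉ Z → u y = κ := by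
  have hdev := M.dev_local
  -- a linear functional and two independent directions
  obtain ⟨φ, e, k, he, hk, hk0⟩ : ∃ (φ : V →ₗ[ℝ] ℝ) (e k : V), φ e = 1 ∧ φ k = 0 ∧ k ≠ 0 := by
    set b := Module.finBasis ℝ V with hb
    have h0 : 0 < Module.finrank ℝ V := by omega
    have h1 : 1 < Module.finrank ℝ V := by omega
    refine ⟨b.coord ⟨0, h0⟩, b ⟨0, h0⟩, b ⟨1, h1⟩, ?_, ?_, b.ne_zero _⟩
    · simp
    · simp [Finsupp.single_apply]
  have he' : 0 < φ e := by rw [he]; exact one_pos
  have hφc : Continuous fun y => φ (M.dev y) :=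
    φ.continuous_of_finiteDimensional.comp M.dev_local.continuous
  obtain ⟨B, hB⟩ := (hC.image hφc).bddBelow
  have hBC : ∀ c ∈ C, B ≤ φ (M.dev c) := fun c hc => hB ⟨c, hc, rfl⟩
  obtain ⟨w, hw⟩ := exists_sol M hC hu he (B - 2)
  -- `w` vanishes below `C`
  have hlow : ∀ y, B - 2 < φ (M.dev y) → φ (M.dev y) < B → w y = 0 := by
    intro y h1 h2
    by_contra hne
    obtain ⟨t, ht, hd, hmem⟩ := hw.hit hdev hu h1 hne hk0 hk.ge
    have h3 := hBC _ hmem
    rw [phi_mv hdev hd, hk, mul_zero, add_zero] at h3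
    linarith
  classical
  set w' : Y → ℤ := fun y => if B - 1 < φ (M.dev y) then w y else 0 with hw'
  have hw'1 : ∀ y, B - 2 < φ (M.dev y) → w' y = w y := by
    intro y hy
    simp only [hw']
    split_ifs with h
    · rfl
    · exact (hlow y hy (by linarith)).symm
  have hlc : LC univ (fun y => w' y - u y) := by
    intro y _
    rcases lt_or_ge (B - 2) (φ (M.dev y)) with h | h
    · have hopen : ∀ᶠ y' in 𝓝 y, B - 2 < φ (M.dev y') :=
        continuousAt_const.eventually_lt hφc.continuousAt h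
      filter_upwards [hw.lc y h, hopen] with y' h1 h2
      rw [hw'1 y' h2, hw'1 y h]
      exact h1
    · have hyC : y ∉ C := fun hmem => by have := hBC y hmem; linarith
      have hopen : ∀ᶠ y' in 𝓝 y, φ (M.dev y') < B - 1 :=
        hφc.continuousAt.eventually_lt continuousAt_const (by linarith)
      filter_upwards [hu y hyC, hopen] with y' h1 h2
      simp only [hw']
      rw [if_neg (by linarith), if_neg (by linarith), h1]
  obtain ⟨Z, hZ, hZ'⟩ := hw.supp
  obtain ⟨y0⟩ : Nonempty Y := inferInstance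
  refine ⟨-(w' y0 - u y0), Z, hZ, fun y hy => ?_⟩
  have h1 : w' y - u y = w' y0 - u y0 :=
    hlc.const isPreconnected_univ (subset_univ _) (mem_univ y) (mem_univ y0)
  have h2 : w' y = 0 := by
    simp only [hw']
    split_ifs with h
    · by_contra hne
      exact hy (hZ' y (by linarith) hne)
    · rfl
  rw [h2] at h1
  linarith

/-- The group `G` has exactly one end: it is infinite, and every subset which is almost invariant
under right translations is finite or has finite complement. -/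
def HasOneEnd (G : Type*) [Group G] : Prop :=
  Infinite G ∧ ∀ A : Set G, (∀ s : G, {g ∈ A | g * s ∉ A}.Finite) → A.Finite ∨ Aᶜ.Finite

include M in
theorem oneEnd [ConnectedSpace Y] (hn : 2 ≤ Module.finrank ℝ V) : HasOneEnd G := by
  classical
  have hdev := M.dev_local
  obtain ⟨Fr⟩ := exists_frame M
  obtain ⟨y0⟩ : Nonempty Y := inferInstance
  obtain ⟨g0, z0, hz0, -⟩ := Fr.cover y0
  have hnt : ∃ v : V, v ≠ 0 := by
    have : Nontrivial V := Module.nontrivial_of_finrank_pos (R := ℝ) (by omega)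
    exact exists_ne 0
  constructor
  · by_contra hfin
    rw [not_infinite_iff_finite] at hfin
    have hY : IsCompact (⋃ g : G, (fun y => g • y) '' Fr.K) :=
      isCompact_iUnion fun g => Fr.hK.image (M.covering.continuous_smul g)
    obtain ⟨v, hv⟩ := hnt
    refine ray_compact hdev (y := y0) hv hY fun t _ _ => ?_
    obtain ⟨g, z, hz, h⟩ := Fr.cover (mv M.dev y0 (t • v))
    exact mem_iUnion.2 ⟨g, z, hz, h.symm⟩
  intro A hA
  -- the finite set of return elements
  have hS : {s : G | ∃ z ∈ Fr.K, s • z ∈ Fr.K}.Finite := finite_of_compact M Fr.hK Fr.hK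
  set F : Set G := ⋃ s ∈ {s : G | ∃ z ∈ Fr.K, s • z ∈ Fr.K}, {g ∈ A | g * s ∉ A} with hF
  have hFfin : F.Finite := hS.biUnion fun s _ => hA s
  set C : Set Y := ⋃ g ∈ F, (fun y => g • y) '' Fr.K with hCdef
  have hC : IsCompact C :=
    hFfin.isCompact_biUnion fun g _ => Fr.hK.image (M.covering.continuous_smul g)
  set U : Set Y := {y | ∃ g ∈ A, ∃ z ∈ Fr.K, y = g • z} with hU
  set u : Y → ℤ := fun y => if y ∈ U then 1 else 0 with hu'
  -- `g K` and `g' K` share a point, `g ∈ A`: then `g' ∈ A` or the point is in `C`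
  have hshare : ∀ y, y ∉ C → ∀ g ∈ A, ∀ z ∈ Fr.K, y = g • z → ∀ g' : G, ∀ z' ∈ Fr.K,
      y = g' • z' → g' ∈ A := by
    intro y hy g hg z hz h1 g' z' hz' h2
    by_contra hg'
    apply hy
    refine mem_biUnion (x := g) ?_ ⟨z, hz, h1.symm⟩
    refine mem_biUnion (x := g⁻¹ * g') ?_ ⟨hg, ?_⟩
    · refine ⟨z', hz', ?_⟩
      rw [mul_smul, ← h2, h1, inv_smul_smul]
      exact hz
    · rw [mul_inv_cancel_left]
      exact hg'
  have hu : LC Cᶜ u := by
    intro y hy
    -- a compact neighbourhood of `y`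
    have hprop := FiniteDimensional.proper ℝ V
    obtain ⟨r3, hr3, hball3⟩ := exists_radius hdev (isCompact_singleton (x := y))
    obtain ⟨K3, hK3, hK3'⟩ := exists_compact_sec hdev (isCompact_singleton (x := y))
      (by linarith : r3 / 2 < r3) hball3
    have hev : ∀ᶠ y' in 𝓝 y, y' ∈ K3 := by
      have h2 : ∀ᶠ y' in 𝓝 y, dist (M.dev y') (M.dev y) < r3 / 2 :=
        (Metric.tendsto_nhds.1 (hdev.continuous.tendsto y)) _ (by linarith)
      filter_upwards [near hdev y, h2] with y' hk1 hk2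
      rw [← hk1.2.1]
      refine hK3' y rfl _ ?_
      rw [← dist_eq_norm]
      exact hk2.le
    have hT : {g : G | ∃ z ∈ Fr.K, g • z ∈ K3}.Finite := finite_of_compact M Fr.hK hK3
    have hsep : ∀ᶠ y' in 𝓝 y, ∀ g : G, (∃ z ∈ Fr.K, y' = g • z) → ∃ z ∈ Fr.K, y = g • z := by
      have h1 : ∀ᶠ y' in 𝓝 y, ∀ g ∈ {g : G | ∃ z ∈ Fr.K, g • z ∈ K3},
          (∃ z ∈ Fr.K, y' = g • z) → ∃ z ∈ Fr.K, y = g • z := by
        rw [Filter.eventually_all_finite hT]
        intro g _
        by_cases hg : ∃ z ∈ Fr.K, y = g • z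
        · exact Filter.Eventually.of_forall fun _ _ => hg
        · have hcl : IsClosed ((fun y => g • y) '' Fr.K) :=
            (Fr.hK.image (M.covering.continuous_smul g)).isClosed
          have hny : y ∉ (fun y => g • y) '' Fr.K := by
            rintro ⟨z, hz, h⟩
            exact hg ⟨z, hz, h.symm⟩
          filter_upwards [hcl.isOpen_compl.mem_nhds hny] with y' h2 h3
          obtain ⟨z, hz, h⟩ := h3
          exact absurd ⟨z, hz, h.symm⟩ h2
      filter_upwards [h1, hev] with y' h2 h3 g hg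
      obtain ⟨z, hz, h⟩ := hg
      exact h2 g ⟨z, hz, by rw [← h]; exact h3⟩ ⟨z, hz, h⟩
    filter_upwards [hsep] with y' h1
    have hiff : y' ∈ U ↔ y ∈ U := by
      constructor
      · rintro ⟨g, hg, h2⟩
        obtain ⟨z, hz, h⟩ := h1 g h2
        exact ⟨g, hg, z, hz, h⟩
      · rintro ⟨g, hg, z, hz, h⟩
        obtain ⟨g', z', hz', h'⟩ := Fr.cover y'
        obtain ⟨z'', hz'', h''⟩ := h1 g' ⟨z', hz', h'⟩
        exact ⟨g', hshare y hy g hg z hz h g' z'' hz'' h'', z', hz', h'⟩
    simp only [hu', hiff]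
  obtain ⟨κ, Z, hZ, hκ⟩ := hartogs M hn hC hu
  have hfin1 : {g : G | ∃ z ∈ Fr.K, g • z ∈ Z}.Finite := finite_of_compact M Fr.hK hZ
  have hfin2 : {g : G | ∃ z ∈ Fr.K, g • z ∈ C}.Finite := finite_of_compact M Fr.hK hC
  by_cases h1 : κ = 1
  · right
    refine (hfin1.union hfin2).subset fun g hg => ?_
    by_contra hcon
    simp only [mem_union, not_or] at hcon
    have h2 : g • z0 ∉ Z := fun hmem => hcon.1 ⟨z0, hz0, hmem⟩
    have h3 : g • z0 ∉ C := fun hmem => hcon.2 ⟨z0, hz0, hmem⟩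
    have h4 := hκ _ h2
    rw [h1] at h4
    have h5 : g • z0 ∈ U := by
      by_contra hne
      simp only [hu', if_neg hne] at h4
      exact absurd h4 (by norm_num)
    obtain ⟨g', hg', z', hz', h⟩ := h5
    exact hg (hshare _ h3 g' hg' z' hz' h g z0 hz0 rfl)
  · left
    refine hfin1.subset fun g hg => ?_
    by_contra hcon
    have h2 : g • z0 ∉ Z := fun hmem => hcon ⟨z0, hz0, hmem⟩
    have h4 := hκ _ h2
    have h5 : g • z0 ∈ U := ⟨g, hg, z0, hz0, rfl⟩
    simp only [hu', if_pos h5] at h4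
    exact h1 h4.symm

end Pool.Agent.Helper53.OE
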