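import Pool.Agent.Helper50.HL.Charts

/-! Rays of a local homeomorphism and locally constant functions. -/

set_option autoImplicit false

open Set Filter Topology

namespace Pool.Agent.Helper53.OE

open Pool.Agent.Helper50.HL

variable {V Y : Type*} [NormedAddCommGroup V] [NormedSpace ℝ V] [TopologicalSpace Y] {dev : Y → V}

/-- `f` is locally constant at the points of `O`. -/
def LC (O : Set Y) (f : Y → ℤ) : Prop := ∀ y ∈ O, ∀ᶠ y' in 𝓝 y, f y' = f y

theorem LC.mono {O O' : Set Y} {f : Y → ℤ} (h : LC O f) (hO : O' ⊆ O) : LC O' f :=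
  fun y hy => h y (hO hy)

theorem LC.sub {O : Set Y} {f g : Y → ℤ} (hf : LC O f) (hg : LC O g) : LC O (fun y => f y - g y) := by
  intro y hy
  filter_upwards [hf y hy, hg y hy] with y' h1 h2
  rw [h1, h2]

theorem LC.add {O : Set Y} {f g : Y → ℤ} (hf : LC O f) (hg : LC O g) : LC O (fun y => f y + g y) := by
  intro y hy
  filter_upwards [hf y hy, hg y hy] with y' h1 h2
  rw [h1, h2]

/-- a locally constant function is constant on a preconnected set -/
theorem LC.const {O S : Set Y} {f : Y → ℤ} (h : LC O f) (hS : IsPreconnected S) (hSO : S ⊆ O)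
    {x y : Y} (hx : x ∈ S) (hy : y ∈ S) : f x = f y := by
  refine hS.constant (f := f) ?_ hx hy
  intro z hz
  have h1 : ContinuousAt f z := by
    have h2 : (fun _ : Y => f z) =ᶠ[𝓝 z] f := by
      filter_upwards [h z (hSO hz)] with z' hz'
      exact hz'.symm
    exact continuousAt_const.congr h2
  exact h1.continuousWithinAt

/-- the point `y + v` -/
noncomputable def mv (dev : Y → V) (y : Y) (v : V) : Y := sec dev y (dev y + v)

theorem mv_def (y : Y) (v : V) : mv dev y v = sec dev y (dev y + v) := rfl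

section

variable [T2Space Y] (hdev : IsLocalHomeomorph dev)
include hdev

theorem dev_mv {y : Y} {v : V} (h : dev y + v ∈ dom dev y) : dev (mv dev y v) = dev y + v :=
  dev_sec hdev h

theorem mv_zero (y : Y) : mv dev y 0 = y := by
  rw [mv_def, add_zero, sec_self hdev]

theorem smul_mem_dom {y : Y} {v : V} (h : dev y + v ∈ dom dev y) {t : ℝ} (h0 : 0 ≤ t)
    (h1 : t ≤ 1) : dev y + t • v ∈ dom dev y := by
  have := (starConvex_iff_segment_subset.mp (starConvex_dom (dev := dev) y)) h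
  apply this
  rw [segment_eq_image']
  exact ⟨t, ⟨h0, h1⟩, by simp⟩

theorem smul_mem_dom' {y : Y} {v : V} {s t : ℝ} (h : dev y + t • v ∈ dom dev y) (h0 : 0 ≤ s)
    (h1 : s ≤ t) : dev y + s • v ∈ dom dev y := by
  rcases h0.eq_or_lt with h2 | h2
  · rw [← h2, zero_smul, add_zero]; exact mem_dom_self hdev y
  · have h3 : 0 < t := h2.trans_le h1
    have := smul_mem_dom hdev h (t := s / t) (by positivity) ((div_le_one h3).2 h1)
    rwa [smul_smul, div_mul_cancel₀ _ h3.ne'] at this

/-- moving along a segment: rebasing -/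
theorem rebase_seg {y : Y} {x x' : V} (hx : x ∈ dom dev y) (hx' : x' ∈ segment ℝ (dev y) x) :
    x' ∈ dom dev (sec dev y x) ∧ sec dev (sec dev y x) x' = sec dev y x' := by
  obtain ⟨C, hC, hconv, hy, hxC, s, hs, hsy⟩ := hx
  have hsub := (chart_convex hdev hC hconv hy hs hsy).1
  have h := rebase hdev hC hconv hy hsub hxC
  have h2 := hconv.segment_subset hy hxC hx'
  exact ⟨h.1 h2, h.2 h2⟩

/-- going back -/
theorem rev {y : Y} {x : V} (hx : x ∈ dom dev y) :
    dev y ∈ dom dev (sec dev y x) ∧ sec dev (sec dev y x) (dev y) = y := by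
  have := rebase_seg hdev hx (left_mem_segment ℝ (dev y) x)
  rw [sec_self hdev] at this
  exact this

/-- one more step of the ray -/
theorem hop {y : Y} {v : V} {t r : ℝ} (ht : 0 ≤ t) (hd : dev y + t • v ∈ dom dev y)
    (hb : Metric.ball (dev y + t • v) r ⊆ dom dev (mv dev y (t • v))) {t' : ℝ} (h1 : t ≤ t')
    (h2 : (t' - t) * ‖v‖ < r) : dev y + t' • v ∈ dom dev y := by
  rcases eq_or_lt_of_le (ht.trans h1) with h0 | h0
  · rw [← h0, zero_smul, add_zero]; exact mem_dom_self hdev y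
  refine mem_dom_of_ray hdev hd ?_ Metric.isOpen_ball (convex_ball (dev y + t • v) r) ?_ hb ?_
  · rw [segment_eq_image']
    refine ⟨t / t', ⟨by positivity, (div_le_one h0).2 h1⟩, ?_⟩
    simp only [add_sub_cancel_left, smul_smul]
    rw [div_mul_cancel₀ _ h0.ne']
  · have : 0 < r := lt_of_le_of_lt (mul_nonneg (by linarith) (norm_nonneg v)) h2
    exact Metric.mem_ball_self this
  · rw [mem_ball_iff_norm]
    have : dev y + t' • v - (dev y + t • v) = (t' - t) • v := by module
    rw [this, norm_smul, Real.norm_eq_abs, abs_of_nonneg (by linarith)]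
    exact h2

/-- A ray does not stay in a compact set. -/
theorem ray_compact {y : Y} {v : V} (hv : v ≠ 0) {Z : Set Y} (hZ : IsCompact Z)
    (h : ∀ t : ℝ, 0 ≤ t → dev y + t • v ∈ dom dev y → mv dev y (t • v) ∈ Z) : False := by
  obtain ⟨r, hr, hball⟩ := exists_radius hdev hZ
  have hv' : 0 < ‖v‖ := norm_pos_iff.2 hv
  set ε : ℝ := r / (2 * ‖v‖) with hε
  have hε0 : 0 < ε := by positivity
  have hεv : ε * ‖v‖ = r / 2 := by rw [hε]; field_simp
  have key : ∀ N : ℕ, dev y + ((N : ℝ) * ε) • v ∈ dom dev y := by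
    intro N
    induction N with
    | zero => simpa using mem_dom_self hdev y
    | succ N ih =>
      have hN : 0 ≤ (N : ℝ) * ε := by positivity
      have h1 := hball _ (h _ hN ih)
      rw [dev_mv hdev ih] at h1
      refine hop hdev hN ih h1 ?_ ?_
      · push_cast; nlinarith
      · have : (((N + 1 : ℕ) : ℝ) * ε - N * ε) * ‖v‖ = r / 2 := by
          rw [← hεv]; push_cast; ring
        rw [this]; linarith
  obtain ⟨B, hB⟩ := (hZ.image hdev.continuous).isBounded.exists_norm_le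
  obtain ⟨N, hN⟩ := exists_nat_gt ((B + ‖dev y‖) / (r / 2))
  have h1 := hB _ ⟨_, h _ (by positivity) (key N), rfl⟩
  rw [dev_mv hdev (key N)] at h1
  have h2 : ‖((N : ℝ) * ε) • v‖ ≤ B + ‖dev y‖ := by
    have h3 : ((N : ℝ) * ε) • v = (dev y + ((N : ℝ) * ε) • v) - dev y := by abel
    rw [h3]
    exact (norm_sub_le _ _).trans (add_le_add h1 le_rfl)
  rw [norm_smul, Real.norm_eq_abs, abs_of_nonneg (by positivity), mul_assoc, hεv] at h2
  rw [div_lt_iff₀ (by linarith)] at hN
  linarith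

/-- the ray as a preconnected set -/
theorem ray_preconnected (y : Y) (v : V) (T : Set ℝ) (hT : T.OrdConnected) (h0 : ∀ t ∈ T, 0 ≤ t) :
    IsPreconnected ((fun t : ℝ => mv dev y (t • v)) '' {t | t ∈ T ∧ dev y + t • v ∈ dom dev y}) := by
  refine IsPreconnected.image ?_ _ ?_
  · refine OrdConnected.isPreconnected ⟨?_⟩
    rintro a ⟨ha, ha'⟩ b ⟨hb, hb'⟩ t ⟨h1, h2⟩
    exact ⟨hT.out ha hb ⟨h1, h2⟩, smul_mem_dom' hdev hb' ((h0 a ha).trans h1) h2⟩
  · have h1 : ContinuousOn (fun t : ℝ => dev y + t • v) {t | t ∈ T ∧ dev y + t • v ∈ dom dev y} := by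
      fun_prop
    exact (isSec_sec hdev y).1.comp h1 fun t ht => ht.2

/-- A locally constant function is constant along a ray. -/
theorem LC.ray {O : Set Y} {f : Y → ℤ} (hf : LC O f) {y : Y} {v : V} {t1 : ℝ} (h0 : 0 ≤ t1)
    (hd : dev y + t1 • v ∈ dom dev y)
    (h : ∀ t : ℝ, 0 ≤ t → t ≤ t1 → mv dev y (t • v) ∈ O) :
    f (mv dev y (t1 • v)) = f y := by
  refine hf.const (ray_preconnected hdev y v (Icc 0 t1) ordConnected_Icc fun t ht => ht.1) ?_
    ⟨t1, ⟨⟨h0, le_rfl⟩, hd⟩, rfl⟩ ⟨0, ⟨⟨le_rfl, h0⟩, ?_⟩, ?_⟩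
  · rintro _ ⟨t, ⟨ht, -⟩, rfl⟩
    exact h t ht.1 ht.2
  · simpa using mem_dom_self hdev y
  · simp only [zero_smul]
    exact mv_zero hdev y

end

end Pool.Agent.Helper53.OE
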