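import Pool.Agent.Helper53.OE.Ray

/-! Solutions above a level of a linear functional. -/

set_option autoImplicit false
set_option linter.unusedSectionVars false

open Set Filter Topology

namespace Pool.Agent.Helper53.OE

open Pool.Agent.Helper50.HL

variable {V Y : Type*} [NormedAddCommGroup V] [NormedSpace ℝ V] [TopologicalSpace Y] {dev : Y → V}

/-- `w - u` is locally constant above the level `s` of `φ`, and `w` has compact support there. -/
structure Sol (dev : Y → V) (φ : V →ₗ[ℝ] ℝ) (u : Y → ℤ) (s : ℝ) (w : Y → ℤ) : Prop where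
  lc : LC {y | s < φ (dev y)} (fun y => w y - u y)
  supp : ∃ Z : Set Y, IsCompact Z ∧ ∀ y, s < φ (dev y) → w y ≠ 0 → y ∈ Z

variable {φ : V →ₗ[ℝ] ℝ} {u : Y → ℤ}

theorem Sol.mono {s s' : ℝ} {w : Y → ℤ} (h : Sol dev φ u s w) (hs : s ≤ s') :
    Sol dev φ u s' w := by
  obtain ⟨Z, hZ, hZ'⟩ := h.supp
  exact ⟨h.lc.mono fun y hy => lt_of_le_of_lt hs hy, Z, hZ,
    fun y hy hw => hZ' y (lt_of_le_of_lt hs hy) hw⟩

section

variable [T2Space Y] (hdev : IsLocalHomeomorph dev)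
include hdev

theorem phi_mv {y : Y} {v : V} {t : ℝ} (h : dev y + t • v ∈ dom dev y) :
    φ (dev (mv dev y (t • v))) = φ (dev y) + t * φ v := by
  rw [dev_mv hdev h, map_add, map_smul, smul_eq_mul]

theorem Sol.unique {s : ℝ} {w w' : Y → ℤ} (h : Sol dev φ u s w) (h' : Sol dev φ u s w')
    {e : V} (he : 0 < φ e) {y : Y} (hy : s < φ (dev y)) : w y = w' y := by
  by_contra hne
  have hd : LC {y | s < φ (dev y)} (fun y => w y - w' y) := by
    have := h.lc.sub h'.lc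
    intro z hz
    filter_upwards [this z hz] with z' hz'
    linarith
  obtain ⟨Z, hZ, hZ'⟩ := h.supp
  obtain ⟨W, hW, hW'⟩ := h'.supp
  have he0 : e ≠ 0 := by rintro rfl; simp at he
  refine ray_compact hdev (y := y) he0 (hZ.union hW) fun t ht hdom => ?_
  have hray : ∀ t' : ℝ, 0 ≤ t' → t' ≤ t → s < φ (dev (mv dev y (t' • e))) := by
    intro t' h0 h1
    rw [phi_mv hdev (smul_mem_dom' hdev hdom h0 h1)]
    have : 0 ≤ t' * φ e := by positivity
    linarith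
  have h1 : w (mv dev y (t • e)) - w' (mv dev y (t • e)) = w y - w' y :=
    hd.ray hdev ht hdom hray
  by_cases hw : w (mv dev y (t • e)) = 0
  · right
    refine hW' _ (hray t ht le_rfl) ?_
    intro hw'
    rw [hw, hw'] at h1
    apply hne
    linarith
  · left
    exact hZ' _ (hray t ht le_rfl) hw

/-- away from the compact set where `u` is not locally constant, `w` is locally constant -/
theorem Sol.lc' {s : ℝ} {w : Y → ℤ} (h : Sol dev φ u s w) {C : Set Y} (hu : LC Cᶜ u) :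
    LC ({y | s < φ (dev y)} ∩ Cᶜ) w := by
  have := (h.lc.mono (inter_subset_left (t := Cᶜ))).add
    (hu.mono (inter_subset_right (s := {y | s < φ (dev y)})))
  intro z hz
  filter_upwards [this z hz] with z' hz'
  linarith

/-- The ray principle. -/
theorem Sol.hit {s : ℝ} {w : Y → ℤ} (h : Sol dev φ u s w) {C : Set Y} (hu : LC Cᶜ u)
    {y : Y} (hy : s < φ (dev y)) (hw : w y ≠ 0) {v : V} (hv : v ≠ 0) (hφ : 0 ≤ φ v) :
    ∃ t : ℝ, 0 ≤ t ∧ dev y + t • v ∈ dom dev y ∧ mv dev y (t • v) ∈ C := by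
  by_contra hcon
  push Not at hcon
  obtain ⟨Z, hZ, hZ'⟩ := h.supp
  refine ray_compact hdev (y := y) hv hZ fun t ht hdom => ?_
  have hray : ∀ t' : ℝ, 0 ≤ t' → t' ≤ t → s < φ (dev (mv dev y (t' • v))) := by
    intro t' h0 h1
    rw [phi_mv hdev (smul_mem_dom' hdev hdom h0 h1)]
    have : 0 ≤ t' * φ v := mul_nonneg h0 hφ
    linarith
  have h1 := (h.lc' hdev hu).ray hdev ht hdom fun t' h0 h1 =>
    ⟨hray t' h0 h1, hcon t' h0 (smul_mem_dom' hdev hdom h0 h1)⟩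
  exact hZ' _ (hray t ht le_rfl) (by rw [h1]; exact hw)

/-- The ray principle, with the first hitting time. -/
theorem Sol.first_hit {s : ℝ} {w : Y → ℤ} (h : Sol dev φ u s w) {C : Set Y} (hC : IsCompact C)
    (hu : LC Cᶜ u) {y : Y} (hy : s < φ (dev y)) (hw : w y ≠ 0) {v : V} (hv : v ≠ 0)
    (hφ : 0 ≤ φ v) :
    ∃ t : ℝ, 0 ≤ t ∧ dev y + t • v ∈ dom dev y ∧ mv dev y (t • v) ∈ C ∧
      ∀ t' : ℝ, 0 ≤ t' → t' < t → w (mv dev y (t' • v)) = w y := by
  obtain ⟨t1, h0, hd, hmem⟩ := h.hit hdev hu hy hw hv hφ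
  have hcont : ContinuousOn (fun t : ℝ => mv dev y (t • v)) (Icc 0 t1) := by
    have h1 : ContinuousOn (fun t : ℝ => dev y + t • v) (Icc 0 t1) := by fun_prop
    exact (isSec_sec hdev y).1.comp h1 fun t ht => smul_mem_dom' hdev hd ht.1 ht.2
  have hclosed : IsClosed (Icc 0 t1 ∩ (fun t : ℝ => mv dev y (t • v)) ⁻¹' C) :=
    hcont.preimage_isClosed_of_isClosed isClosed_Icc hC.isClosed
  have hcomp : IsCompact (Icc 0 t1 ∩ (fun t : ℝ => mv dev y (t • v)) ⁻¹' C) :=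
    isCompact_Icc.of_isClosed_subset hclosed inter_subset_left
  obtain ⟨t, ht, hmin⟩ := hcomp.exists_isLeast ⟨t1, ⟨h0, le_rfl⟩, hmem⟩
  refine ⟨t, ht.1.1, smul_mem_dom' hdev hd ht.1.1 ht.1.2, ht.2, fun t' h0' h1' => ?_⟩
  have hd' : dev y + t' • v ∈ dom dev y := smul_mem_dom' hdev hd h0' (h1'.le.trans ht.1.2)
  refine (h.lc' hdev hu).ray hdev h0' hd' fun t'' h0'' h1'' => ⟨?_, fun hmem' => ?_⟩
  · show s < φ (dev (mv dev y (t'' • v)))
    rw [phi_mv hdev (smul_mem_dom' hdev hd' h0'' h1'')]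
    have : 0 ≤ t'' * φ v := mul_nonneg h0'' hφ
    linarith
  · have := hmin ⟨⟨h0'', h1''.trans (h1'.le.trans ht.1.2)⟩, hmem'⟩
    linarith

end

section Bounded

variable [T2Space Y] [FiniteDimensional ℝ V] (hdev : IsLocalHomeomorph dev)
include hdev

theorem functional_bdd {s0 : ℝ} {w : Y → ℤ} (h : ∀ s, s0 < s → Sol dev φ u s w) {C : Set Y}
    (hC : IsCompact C) (hu : LC Cᶜ u) {e : V} (he : φ e = 1) (ψ : V →ₗ[ℝ] ℝ) :
    ∃ B : ℝ, ∀ y, s0 < φ (dev y) → w y ≠ 0 → |ψ (dev y)| ≤ B := by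
  have hbd : ∀ ψ : V →ₗ[ℝ] ℝ, ∃ B : ℝ, ∀ c ∈ C, |ψ (dev c)| ≤ B := by
    intro ψ
    have hψ : Continuous ψ := ψ.continuous_of_finiteDimensional
    obtain ⟨B, hB⟩ := ((hC.image hdev.continuous).image hψ).isBounded.exists_norm_le
    exact ⟨B, fun c hc => by simpa using hB _ ⟨_, ⟨c, hc, rfl⟩, rfl⟩⟩
  have hhit : ∀ y, s0 < φ (dev y) → w y ≠ 0 → ∀ v : V, v ≠ 0 → 0 ≤ φ v →
      ∃ t : ℝ, 0 ≤ t ∧ ∃ c ∈ C, dev c = dev y + t • v := by
    intro y hy hw v hv hφ
    obtain ⟨t, ht, hd, hm⟩ := (h ((s0 + φ (dev y)) / 2) (by linarith)).hit hdev hu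
      (y := y) (by linarith) hw hv hφ
    exact ⟨t, ht, _, hm, dev_mv hdev hd⟩
  have he0 : e ≠ 0 := by rintro rfl; simp at he
  by_cases hcase : ∃ k : V, φ k = 0 ∧ ψ k ≠ 0
  · obtain ⟨k, hk, hk'⟩ := hcase
    set k1 : V := (ψ k)⁻¹ • k with hk1
    have e1 : φ k1 = 0 := by rw [hk1, map_smul, hk, smul_zero]
    have e2 : ψ k1 = 1 := by rw [hk1, map_smul, smul_eq_mul, inv_mul_cancel₀ hk']
    have e3 : k1 ≠ 0 := by intro h0; rw [h0, map_zero] at e2; exact zero_ne_one e2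
    obtain ⟨B, hB⟩ := hbd ψ
    refine ⟨B, fun y hy hw => ?_⟩
    obtain ⟨t, ht, c, hc, hdc⟩ := hhit y hy hw k1 e3 (by rw [e1])
    obtain ⟨t', ht', c', hc', hdc'⟩ := hhit y hy hw (-k1) (neg_ne_zero.2 e3)
      (by rw [map_neg, e1, neg_zero])
    have b1 := hB c hc
    have b2 := hB c' hc'
    rw [hdc, map_add, map_smul, e2, smul_eq_mul, mul_one] at b1
    rw [hdc', map_add, map_smul, map_neg, e2, smul_eq_mul, mul_neg, mul_one] at b2
    rw [abs_le] at b1 b2 ⊢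
    constructor <;> linarith
  · push Not at hcase
    have hψ : ∀ x, ψ x = φ x * ψ e := by
      intro x
      have h1 := hcase (x - φ x • e) (by
        rw [map_sub, map_smul, he, smul_eq_mul, mul_one, sub_self])
      rw [map_sub, map_smul, smul_eq_mul, sub_eq_zero] at h1
      exact h1
    obtain ⟨B, hB⟩ := hbd φ
    refine ⟨(|s0| + |B|) * |ψ e|, fun y hy hw => ?_⟩
    obtain ⟨t, ht, c, hc, hdc⟩ := hhit y hy hw e he0 (by rw [he]; exact zero_le_one)
    have b1 := hB c hc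
    rw [hdc, map_add, map_smul, he, smul_eq_mul, mul_one, abs_le] at b1
    rw [hψ, abs_mul]
    refine mul_le_mul_of_nonneg_right ?_ (abs_nonneg _)
    have h1 := neg_abs_le s0
    have h2 := le_abs_self B
    have h3 := abs_nonneg s0
    have h4 := abs_nonneg B
    rw [abs_le]
    constructor <;> linarith [b1.1, b1.2]

theorem dev_bdd {s0 : ℝ} {w : Y → ℤ} (h : ∀ s, s0 < s → Sol dev φ u s w) {C : Set Y}
    (hC : IsCompact C) (hu : LC Cᶜ u) {e : V} (he : φ e = 1) :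
    ∃ B : ℝ, 0 < B ∧ ∀ y, s0 < φ (dev y) → w y ≠ 0 → ‖dev y‖ ≤ B := by
  classical
  set b := Module.finBasis ℝ V with hb
  have h1 : ∀ i, ∃ B : ℝ, ∀ y, s0 < φ (dev y) → w y ≠ 0 → |b.coord i (dev y)| ≤ B :=
    fun i => functional_bdd hdev h hC hu he (b.coord i)
  choose B hB using h1
  refine ⟨1 + |∑ i, B i * ‖b i‖|, by positivity, fun y hy hw => ?_⟩
  have h2 : dev y = ∑ i, b.coord i (dev y) • b i := by
    simp [b.sum_repr (dev y)]
  have h3 : ‖dev y‖ ≤ ∑ i, B i * ‖b i‖ := by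
    calc ‖dev y‖ = ‖∑ i, b.coord i (dev y) • b i‖ := congrArg _ h2
      _ ≤ ∑ i, B i * ‖b i‖ := by
        refine (norm_sum_le _ _).trans (Finset.sum_le_sum fun i _ => ?_)
        rw [norm_smul, Real.norm_eq_abs]
        exact mul_le_mul_of_nonneg_right (hB i y hy hw) (norm_nonneg _)
  have h4 := le_abs_self (∑ i, B i * ‖b i‖)
  linarith

end Bounded

end Pool.Agent.Helper53.OE
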