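import Pool.Agent.Helper53.OE.Limit

/-! The limit step: solutions above all levels `s > s0` give a solution above `s0`. -/

set_option autoImplicit false
set_option linter.unusedSectionVars false

open Set Filter Topology

namespace Pool.Agent.Helper53.OE

open Pool.Agent.Helper50.HL Pool.Agent.Helper2.MK Pool.Agent.Helper2.RO

variable {V G Y : Type*} [NormedAddCommGroup V] [NormedSpace ℝ V] [FiniteDimensional ℝ V]
  [Group G] [TopologicalSpace Y] [T2Space Y] [MulAction G Y] (M : AffineDeveloping V G Y)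

/-- the part of the half ellipsoid above the centre is bounded -/
theorem half_bdd (Fr : Frame M) {φ : V →ₗ[ℝ] ℝ} {u w : Y → ℤ} {s0 B : ℝ}
    (h : ∀ s, s0 < s → Sol M.dev φ u s w) {C : Set Y} (hu : LC Cᶜ u)
    (hB : ∀ y, s0 < φ (M.dev y) → w y ≠ 0 → ‖M.dev y‖ ≤ B) {g : G} {z : Y} (hz : z ∈ Fr.K)
    (hgz : s0 < φ (M.dev (g • z))) (hw : w (g • z) ≠ 0)
    (hg : g ∉ {g : G | ∃ z ∈ Fr.K1, g • z ∈ C}) {v : V} (hv : ‖lin M g⁻¹ v‖ ≤ Fr.r0 / 2)
    (hφ : 0 ≤ φ v) : ‖v‖ ≤ 2 * B := by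
  have hr := Fr.hr0
  have hnorm : ∀ t : ℝ, 0 ≤ t → t ≤ 1 →
      ‖lin M g⁻¹ (M.dev (g • z) + t • v - M.dev (g • z))‖ ≤ Fr.r0 / 2 := by
    intro t h0 h1
    rw [add_sub_cancel_left, map_smul, norm_smul, Real.norm_eq_abs, abs_of_nonneg h0]
    have := norm_nonneg (lin M g⁻¹ v)
    nlinarith
  have hdom : ∀ t : ℝ, 0 ≤ t → t ≤ 1 → M.dev (g • z) + t • v ∈ dom M.dev (g • z) := by
    intro t h0 h1
    exact ellipsoid M Fr g hz (lt_of_le_of_lt (hnorm t h0 h1) (by linarith))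
  have hs : s0 < (s0 + φ (M.dev (g • z))) / 2 := by linarith
  have hphi : ∀ t : ℝ, 0 ≤ t → t ≤ 1 →
      (s0 + φ (M.dev (g • z))) / 2 < φ (M.dev (mv M.dev (g • z) (t • v))) := by
    intro t h0 h1
    rw [phi_mv M.dev_local (hdom t h0 h1)]
    have : 0 ≤ t * φ v := mul_nonneg h0 hφ
    linarith
  have h1 := ((h _ hs).lc' M.dev_local hu).ray M.dev_local (y := g • z) (v := v)
    zero_le_one (hdom 1 zero_le_one le_rfl) (fun t h0 h1 => ⟨hphi t h0 h1, fun hmem => by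
      obtain ⟨k, hk, hk'⟩ := half_sec M Fr g hz (hnorm t h0 h1)
      exact hg ⟨k, hk, by rw [← hk']; exact hmem⟩⟩)
  have h2 := hB (mv M.dev (g • z) ((1 : ℝ) • v)) (lt_trans hs (hphi 1 zero_le_one le_rfl))
    (by rw [h1]; exact hw)
  rw [dev_mv M.dev_local (hdom 1 zero_le_one le_rfl), one_smul] at h2
  have h3 := hB _ hgz hw
  calc ‖v‖ = ‖(M.dev (g • z) + v) - M.dev (g • z)‖ := by rw [add_sub_cancel_left]
    _ ≤ ‖M.dev (g • z) + v‖ + ‖M.dev (g • z)‖ := norm_sub_le _ _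
    _ ≤ 2 * B := by linarith

theorem limit_step {φ : V →ₗ[ℝ] ℝ} {u w : Y → ℤ} {s0 : ℝ}
    (h : ∀ s, s0 < s → Sol M.dev φ u s w) {C : Set Y} (hC : IsCompact C) (hu : LC Cᶜ u)
    {e : V} (he : φ e = 1) : Sol M.dev φ u s0 w := by
  have hdev := M.dev_local
  have he0 : e ≠ 0 := by rintro rfl; simp at he
  refine ⟨fun y hy => ?_, ?_⟩
  · have hy' : s0 < φ (M.dev y) := hy
    have hy2 : (s0 + φ (M.dev y)) / 2 < φ (M.dev y) := by linarith
    exact (h ((s0 + φ (M.dev y)) / 2) (by linarith)).lc y hy2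
  obtain ⟨Fr⟩ := exists_frame M
  have hr0 := Fr.hr0
  obtain ⟨B, hB0, hB⟩ := dev_bdd hdev h hC hu he
  set S : Set Y := {y | s0 < φ (M.dev y) ∧ w y ≠ 0} with hS
  by_cases hfin : {g : G | ∃ z ∈ Fr.K, g • z ∈ S}.Finite
  · refine ⟨⋃ g ∈ {g : G | ∃ z ∈ Fr.K, g • z ∈ S}, (fun y => g • y) '' Fr.K,
      hfin.isCompact_biUnion fun g _ => Fr.hK.image (M.covering.continuous_smul g), ?_⟩
    intro y hy hw
    obtain ⟨g, z, hz, rfl⟩ := Fr.cover y
    exact mem_biUnion (show g ∈ {g : G | ∃ z ∈ Fr.K, g • z ∈ S} from ⟨z, hz, hy, hw⟩)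
      ⟨z, hz, rfl⟩
  exfalso
  have hinf : {g : G | ∃ z ∈ Fr.K, g • z ∈ S}.Infinite := hfin
  set emb := hinf.natEmbedding with hemb
  set g : ℕ → G := fun k => (emb k : G) with hg
  have hginj : Function.Injective g := fun a b hab => emb.injective (Subtype.ext hab)
  have hgz : ∀ k, ∃ z ∈ Fr.K, g k • z ∈ S := fun k => (emb k).2
  choose z hz hzS using hgz
  have hF1 : {g : G | ∃ z ∈ Fr.K1, g • z ∈ C}.Finite := finite_of_compact M Fr.hK1 hC
  have hev1 : ∀ᶠ k in (hyperfilter ℕ : Filter ℕ), g k ∉ {g : G | ∃ z ∈ Fr.K1, g • z ∈ C} :=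
    (hginj.tendsto_cofinite.eventually hF1.eventually_cofinite_notMem).filter_mono
      hyperfilter_le_cofinite
  -- the linear parts are bounded
  have hlin : ∀ k, g k ∉ {g : G | ∃ z ∈ Fr.K1, g • z ∈ C} → ∀ x,
      ‖lin M (g k) x‖ ≤ (4 * B / Fr.r0) * ‖x‖ := by
    intro k hk x
    have hb : ∀ v, ‖lin M (g k)⁻¹ v‖ ≤ Fr.r0 / 2 → ‖v‖ ≤ 2 * B := by
      intro v hv
      rcases le_total 0 (φ v) with hφ | hφ
      · exact half_bdd M Fr h hu hB (hz k) (hzS k).1 (hzS k).2 hk hv hφ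
      · have := half_bdd M Fr h hu hB (hz k) (hzS k).1 (hzS k).2 hk (v := -v)
          (by rw [map_neg, norm_neg]; exact hv) (by rw [map_neg]; linarith)
        rwa [norm_neg] at this
    by_cases hx : x = 0
    · rw [hx, map_zero, norm_zero, mul_zero]
    have hx' : 0 < ‖x‖ := norm_pos_iff.2 hx
    have h1 := hb ((Fr.r0 / (2 * ‖x‖)) • lin M (g k) x) (by
      rw [map_smul, lin_inv_lin, norm_smul, Real.norm_eq_abs, abs_of_nonneg (by positivity)]
      apply le_of_eq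
      field_simp)
    rw [norm_smul, Real.norm_eq_abs, abs_of_nonneg (by positivity)] at h1
    rw [div_mul_eq_mul_div, div_le_iff₀ (by positivity)] at h1
    rw [div_mul_eq_mul_div, le_div_iff₀ hr0]
    nlinarith
  obtain ⟨c, hc, hdet⟩ := det_bound V (4 * B / Fr.r0)
  have hinv : ∀ k, g k ∉ {g : G | ∃ z ∈ Fr.K1, g • z ∈ C} → ∀ v,
      c * ‖lin M (g k)⁻¹ v‖ ≤ ‖v‖ := by
    intro k hk v
    have := hdet (lin M (g k)) (M.volume_hol (g k)) (hlin k hk) (lin M (g k)⁻¹ v)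
    rwa [lin_lin_inv] at this
  set q : ℕ → Y := fun k => g k • z k with hq
  set r1 : ℝ := c * Fr.r0 with hr1
  have hr1pos : 0 < r1 := by positivity
  have hball : ∀ k, g k ∉ {g : G | ∃ z ∈ Fr.K1, g • z ∈ C} →
      Metric.ball (M.dev (q k)) r1 ⊆ dom M.dev (q k) := by
    intro k hk x hx
    refine ellipsoid M Fr (g k) (hz k) ?_
    have h1 := hinv k hk (x - M.dev (q k))
    rw [mem_ball_iff_norm] at hx
    have h2 : c * ‖lin M (g k)⁻¹ (x - M.dev (q k))‖ < c * Fr.r0 := lt_of_le_of_lt h1 hx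
    exact lt_of_mul_lt_mul_left h2 hc.le
  -- vertical rays
  have hfh : ∀ k, ∃ t : ℝ, 0 ≤ t ∧ M.dev (q k) + t • e ∈ dom M.dev (q k) ∧
      mv M.dev (q k) (t • e) ∈ C ∧
      ∀ t' : ℝ, 0 ≤ t' → t' < t → w (mv M.dev (q k) (t' • e)) = w (q k) := by
    intro k
    have hk := (hzS k).1
    exact (h ((s0 + φ (M.dev (q k))) / 2) (by
      have : s0 < φ (M.dev (q k)) := hk
      linarith)).first_hit hdev hC hu (y := q k) (by
        have : s0 < φ (M.dev (q k)) := hk
        linarith) (hzS k).2 he0 (by rw [he]; exact zero_le_one)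
  choose t ht0 htd htC htw using hfh
  set p : ℕ → Y := fun k => mv M.dev (q k) (t k • e) with hp
  obtain ⟨B', hB'⟩ : ∃ B' : ℝ, ∀ c ∈ C, |φ (M.dev c)| ≤ B' := by
    have hφ : Continuous φ := φ.continuous_of_finiteDimensional
    obtain ⟨B', hB'⟩ := ((hC.image hdev.continuous).image hφ).isBounded.exists_norm_le
    exact ⟨B', fun c hc => by simpa using hB' _ ⟨_, ⟨c, hc, rfl⟩, rfl⟩⟩
  have htT : ∀ k, t k ≤ B' - s0 := by
    intro k
    have h1 := hB' _ (htC k)
    rw [phi_mv hdev (htd k), he, mul_one, abs_le] at h1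
    have h2 : s0 < φ (M.dev (q k)) := (hzS k).1
    linarith [h1.2]
  -- uniform radius along the vertical segments
  set τ1 : ℝ := r1 / (2 * (‖e‖ + 1)) with hτ1
  have hen := norm_nonneg e
  have hτ1pos : 0 < τ1 := by positivity
  have hτe : τ1 * ‖e‖ < r1 / 2 := by
    rw [hτ1, div_mul_eq_mul_div, div_lt_div_iff₀ (by positivity) (by norm_num)]
    nlinarith
  obtain ⟨Z1, hZ1, hZ1'⟩ := (h (s0 + τ1) (by linarith)).supp
  obtain ⟨r2, hr2, hball2⟩ := exists_radius hdev (hZ1.union hC)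
  set ρ : ℝ := min (r1 / 2) r2 with hρ
  have hρpos : 0 < ρ := lt_min (by linarith) hr2
  have hseg : ∀ k, ∀ t' : ℝ, 0 ≤ t' → t' ≤ t k → M.dev (q k) + t' • e ∈ dom M.dev (q k) :=
    fun k t' h0 h1 => smul_mem_dom' hdev (htd k) h0 h1
  have hunif : ∀ k, g k ∉ {g : G | ∃ z ∈ Fr.K1, g • z ∈ C} → ∀ t' : ℝ, 0 ≤ t' → t' ≤ t k →
      Metric.ball (M.dev (mv M.dev (q k) (t' • e))) ρ ⊆ dom M.dev (mv M.dev (q k) (t' • e)) := by
    intro k hk t' h0 h1
    rcases lt_or_ge t' τ1 with hlt | hge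
    · have hmem : M.dev (q k) + t' • e ∈ Metric.ball (M.dev (q k)) r1 := by
        rw [mem_ball_iff_norm, add_sub_cancel_left, norm_smul, Real.norm_eq_abs, abs_of_nonneg h0]
        nlinarith
      have h2 := (rebase hdev Metric.isOpen_ball (convex_ball _ _) (Metric.mem_ball_self hr1pos)
        (hball k hk) hmem).1
      refine Subset.trans (Metric.ball_subset_ball' ?_) h2
      rw [dev_mv hdev (hseg k t' h0 h1), dist_eq_norm, add_sub_cancel_left, norm_smul,
        Real.norm_eq_abs, abs_of_nonneg h0]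
      have h3 : ρ ≤ r1 / 2 := min_le_left _ _
      nlinarith
    · have hm : mv M.dev (q k) (t' • e) ∈ Z1 ∪ C := by
        rcases h1.lt_or_eq with h2 | h2
        · left
          apply hZ1'
          · rw [phi_mv hdev (hseg k t' h0 h1), he, mul_one]
            have h2 : s0 < φ (M.dev (q k)) := (hzS k).1
            linarith
          · rw [htw k t' h0 h2]; exact (hzS k).2
        · right
          rw [h2]; exact htC k
      exact (Metric.ball_subset_ball (min_le_right _ _)).trans (hball2 _ hm)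
  -- going back from `p k`
  have hback : ∀ k, ∀ τ : ℝ, 0 ≤ τ → τ ≤ t k → M.dev (p k) + τ • (-e) ∈ dom M.dev (p k) ∧
      mv M.dev (p k) (τ • (-e)) = mv M.dev (q k) ((t k - τ) • e) := by
    intro k τ h0 h1
    have h2 : M.dev (p k) + τ • (-e) = M.dev (q k) + (t k - τ) • e := by
      rw [hp]
      simp only
      rw [dev_mv hdev (htd k)]
      module
    have h3 : M.dev (q k) + (t k - τ) • e ∈ segment ℝ (M.dev (q k)) (M.dev (q k) + t k • e) := by
      rcases (ht0 k).eq_or_lt with h4 | h4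
      · have h5 : τ = 0 := by linarith
        rw [← h4, h5, sub_zero, zero_smul, add_zero]
        exact left_mem_segment ℝ _ _
      · rw [segment_eq_image']
        refine ⟨(t k - τ) / t k, ⟨div_nonneg (by linarith) h4.le, ?_⟩, ?_⟩
        · rw [div_le_one h4]; linarith
        · simp only [add_sub_cancel_left, smul_smul]
          rw [div_mul_cancel₀ _ h4.ne']
    have h4 := rebase_seg hdev (htd k) h3
    refine ⟨?_, ?_⟩
    · rw [h2]; exact h4.1
    · rw [mv_def, h2]; exact h4.2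
  -- limits
  obtain ⟨p0, hp0C, hp0⟩ := hC.ultrafilter_le_nhds' ((hyperfilter ℕ).map p)
    (Filter.mem_map.2 (Filter.univ_mem' htC))
  obtain ⟨t0, ht0I, ht0'⟩ := (isCompact_Icc (a := (0 : ℝ)) (b := B' - s0)).ultrafilter_le_nhds'
    ((hyperfilter ℕ).map t) (Filter.mem_map.2 (Filter.univ_mem' fun k => ⟨ht0 k, htT k⟩))
  have hpt : Tendsto p (hyperfilter ℕ : Filter ℕ) (𝓝 p0) := hp0
  have htt : Tendsto t (hyperfilter ℕ : Filter ℕ) (𝓝 t0) := ht0'
  have hd0 := back_limit hdev (v := -e) hρpos hpt htt (by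
    filter_upwards [hev1] with k hk τ h0 h1
    obtain ⟨h2, h3⟩ := hback k τ h0 h1
    refine ⟨h2, ?_⟩
    rw [h3]
    exact hunif k hk _ (by linarith) (by linarith)) ht0I.1
  have hqt : Tendsto q (hyperfilter ℕ : Filter ℕ) (𝓝 (mv M.dev p0 (t0 • (-e)))) := by
    have c1 : ContinuousAt (fun q : Y × V => sec M.dev q.1 q.2) (p0, M.dev p0 + t0 • (-e)) :=
      (continuousOn_graph hdev).continuousAt ((isOpen_graph hdev).mem_nhds hd0)
    have c2 : Tendsto (fun k => (p k, M.dev (p k) + t k • (-e))) (hyperfilter ℕ : Filter ℕ)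
        (𝓝 (p0, M.dev p0 + t0 • (-e))) := by
      refine hpt.prodMk_nhds ?_
      exact ((hdev.continuous.tendsto p0).comp hpt).add (htt.smul_const _)
    refine (c1.tendsto.comp c2).congr fun k => ?_
    have h1 := (hback k (t k) (ht0 k) le_rfl).2
    rw [sub_self, zero_smul, mv_zero hdev] at h1
    exact h1
  set q0 := mv M.dev p0 (t0 • (-e)) with hq0
  have hprop := FiniteDimensional.proper ℝ V
  obtain ⟨r3, hr3, hball3⟩ := exists_radius hdev (isCompact_singleton (x := q0))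
  obtain ⟨K3, hK3, hK3'⟩ := exists_compact_sec hdev (isCompact_singleton (x := q0))
    (by linarith : r3 / 2 < r3) hball3
  have hev2 : ∀ᶠ k in (hyperfilter ℕ : Filter ℕ), q k ∈ K3 := by
    have h1 := hqt.eventually (near hdev q0)
    have h2 : ∀ᶠ k in (hyperfilter ℕ : Filter ℕ), dist (M.dev (q k)) (M.dev q0) < r3 / 2 :=
      (Metric.tendsto_nhds.1 ((hdev.continuous.tendsto q0).comp hqt)) _ (by linarith)
    filter_upwards [h1, h2] with k hk1 hk2
    rw [← hk1.2.1]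
    refine hK3' q0 rfl _ ?_
    rw [← dist_eq_norm]
    exact hk2.le
  have hF2 : {g : G | ∃ z ∈ Fr.K, g • z ∈ K3}.Finite := finite_of_compact M Fr.hK hK3
  have hev3 : ∀ᶠ k in (hyperfilter ℕ : Filter ℕ), g k ∉ {g : G | ∃ z ∈ Fr.K, g • z ∈ K3} :=
    (hginj.tendsto_cofinite.eventually hF2.eventually_cofinite_notMem).filter_mono
      hyperfilter_le_cofinite
  obtain ⟨k, hk1, hk2⟩ := (hev2.and hev3).exists
  exact hk2 ⟨z k, hz k, hk1⟩

end Pool.Agent.Helper53.OE
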